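import Mathlib

/-!
# Integral polynomials over an ultrametric field, Newton iteration
-/

set_option autoImplicit false

open Polynomial

namespace Pool.Agent.H50.N6B

section

variable {F : Type} [NormedField F] [IsUltrametricDist F]

/-- the elements of norm at most one -/
def ringO (F : Type) [NormedField F] [IsUltrametricDist F] : Subring F where
  carrier := {x | ‖x‖ ≤ 1}
  mul_mem' := by
    intro a b ha hb
    change ‖a * b‖ ≤ 1
    rw [norm_mul]
    exact mul_le_one₀ ha (norm_nonneg _) hb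
  one_mem' := by simp
  add_mem' := by
    intro a b ha hb
    exact (IsUltrametricDist.norm_add_le_max a b).trans (max_le ha hb)
  zero_mem' := by simp
  neg_mem' := by
    intro a ha
    simpa using ha

theorem mem_ringO (x : F) : x ∈ ringO F ↔ ‖x‖ ≤ 1 := Iff.rfl

/-- an integral polynomial comes from the ring of integers -/
theorem exists_lift (P : F[X]) (h : ∀ i, ‖P.coeff i‖ ≤ 1) :
    ∃ P' : (ringO F)[X], P'.map (ringO F).subtype = P := by
  have hs : (↑P.coeffs : Set F) ⊆ (ringO F : Set F) := by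
    intro x hx
    rw [Finset.mem_coe, Polynomial.mem_coeffs_iff] at hx
    obtain ⟨n, _, rfl⟩ := hx
    exact h n
  exact ⟨P.toSubring (ringO F) hs, Polynomial.map_toSubring P (ringO F) hs⟩

theorem coeff_map_le (P' : (ringO F)[X]) (i : ℕ) : ‖(P'.map (ringO F).subtype).coeff i‖ ≤ 1 := by
  rw [coeff_map]
  exact (P'.coeff i).2

theorem subtype_inj : Function.Injective (ringO F).subtype := Subtype.coe_injective

theorem lift_monic {P' : (ringO F)[X]} (h : (P'.map (ringO F).subtype).Monic) : P'.Monic :=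
  Polynomial.monic_of_injective subtype_inj h

theorem eval_lift (P' : (ringO F)[X]) (x : ringO F) :
    eval (x : F) (P'.map (ringO F).subtype) = ((eval x P' : ringO F) : F) := by
  have h := Polynomial.eval₂_at_apply (p := P') (ringO F).subtype x
  rw [eval_map]
  exact h

theorem modByMonic_int (P g : F[X]) (hP : P.Monic) (h : ∀ i, ‖P.coeff i‖ ≤ 1)
    (hg : ∀ i, ‖g.coeff i‖ ≤ 1) (i : ℕ) : ‖(g %ₘ P).coeff i‖ ≤ 1 := by
  obtain ⟨P', rfl⟩ := exists_lift P h
  obtain ⟨g', rfl⟩ := exists_lift g hg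
  rw [← Polynomial.map_modByMonic _ (lift_monic hP)]
  exact coeff_map_le _ _

theorem eval_int (P : F[X]) (h : ∀ i, ‖P.coeff i‖ ≤ 1) (x : F) (hx : ‖x‖ ≤ 1) :
    ‖eval x P‖ ≤ 1 := by
  obtain ⟨P', rfl⟩ := exists_lift P h
  have h1 := eval_lift P' ⟨x, hx⟩
  rw [show eval x (P'.map (ringO F).subtype) = _ from h1]
  exact (eval (⟨x, hx⟩ : ringO F) P').2

theorem lips (P : F[X]) (h : ∀ i, ‖P.coeff i‖ ≤ 1) (x y : F) (hx : ‖x‖ ≤ 1) (hy : ‖y‖ ≤ 1) :
    ∃ k : F, ‖k‖ ≤ 1 ∧ eval x P - eval y P = k * (x - y) := by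
  obtain ⟨P', rfl⟩ := exists_lift P h
  obtain ⟨k, hk⟩ := Polynomial.evalSubFactor P' ⟨x, hx⟩ ⟨y, hy⟩
  refine ⟨k, k.2, ?_⟩
  have h1 := eval_lift P' ⟨x, hx⟩
  have h2 := eval_lift P' ⟨y, hy⟩
  rw [show eval x (P'.map (ringO F).subtype) = _ from h1,
    show eval y (P'.map (ringO F).subtype) = _ from h2]
  have h3 := congrArg (fun z : ringO F => (z : F)) hk
  simpa using h3

theorem binom (P : F[X]) (h : ∀ i, ‖P.coeff i‖ ≤ 1) (x y : F) (hx : ‖x‖ ≤ 1) (hy : ‖y‖ ≤ 1) :
    ∃ k : F, ‖k‖ ≤ 1 ∧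
      eval x P = eval y P + eval y (derivative P) * (x - y) + k * (x - y) ^ 2 := by
  obtain ⟨P', rfl⟩ := exists_lift P h
  obtain ⟨k, hk⟩ := Polynomial.binomExpansion P' ⟨y, hy⟩ (⟨x, hx⟩ - ⟨y, hy⟩)
  refine ⟨k, k.2, ?_⟩
  have h1 := eval_lift P' ⟨x, hx⟩
  have h2 := eval_lift P' ⟨y, hy⟩
  have h3 := eval_lift (derivative P') ⟨y, hy⟩
  rw [derivative_map, show eval x (P'.map (ringO F).subtype) = _ from h1,
    show eval y (P'.map (ringO F).subtype) = _ from h2,
    show eval y ((derivative P').map (ringO F).subtype) = _ from h3]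
  rw [add_sub_cancel] at hk
  have h4 := congrArg (fun z : ringO F => (z : F)) hk
  simpa using h4

theorem deriv_int (P : F[X]) (h : ∀ i, ‖P.coeff i‖ ≤ 1) (i : ℕ) :
    ‖(derivative P).coeff i‖ ≤ 1 := by
  obtain ⟨P', rfl⟩ := exists_lift P h
  rw [derivative_map]
  exact coeff_map_le _ _

/-- a norm of a sum with a dominating term -/
theorem norm_eq_of_sub_lt {a b : F} (hb : ‖b‖ = 1) (h : ‖a - b‖ < 1) : ‖a‖ = 1 := by
  have h1 : a = (a - b) + b := by ring
  have h2 : ‖a‖ ≤ 1 := by
    rw [h1]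
    exact (IsUltrametricDist.norm_add_le_max _ _).trans (max_le h.le hb.le)
  by_contra h3
  have h4 : ‖a‖ < 1 := lt_of_le_of_ne h2 h3
  have h5 : b = a + (-(a - b)) := by ring
  have h6 : ‖b‖ ≤ max ‖a‖ ‖-(a - b)‖ := by
    conv_lhs => rw [h5]
    exact IsUltrametricDist.norm_add_le_max _ _
  rw [norm_neg, hb] at h6
  exact absurd (max_lt h4 h) (not_lt.2 h6)

end

section newton

variable {F : Type} [NormedField F] [IsUltrametricDist F] [CompleteSpace F]

/-- Newton iteration with fixed slope -/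
noncomputable def newt (P : F[X]) (t : F) : ℕ → F
  | 0 => t
  | n + 1 => newt P t n - eval (newt P t n) P / eval t (derivative P)

omit [CompleteSpace F] in
theorem newt_aux (P : F[X]) (t : F) (h : ∀ i, ‖P.coeff i‖ ≤ 1) (ht : ‖t‖ ≤ 1)
    (h1 : ‖eval t P‖ < 1) (h2 : ‖eval t (derivative P)‖ = 1) (n : ℕ) :
    ‖newt P t n - t‖ ≤ ‖eval t P‖ ∧ ‖eval (newt P t n) P‖ ≤ ‖eval t P‖ * ‖eval t P‖ ^ n := by
  induction n with
  | zero => simp [newt]
  | succ n ih =>
    obtain ⟨i1, i2⟩ := ih
    have hd : eval t (derivative P) ≠ 0 := by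
      intro h0
      rw [h0, norm_zero] at h2
      exact zero_ne_one h2
    have hr : ‖eval (newt P t n) P‖ ≤ ‖eval t P‖ :=
      i2.trans (mul_le_of_le_one_right (norm_nonneg _) (pow_le_one₀ (norm_nonneg _) h1.le))
    have e1 : newt P t (n + 1) - newt P t n = -(eval (newt P t n) P / eval t (derivative P)) := by
      simp only [newt]
      ring
    have e2 : ‖newt P t (n + 1) - newt P t n‖ = ‖eval (newt P t n) P‖ := by
      rw [e1, norm_neg, norm_div, h2, div_one]
    have e3 : ‖newt P t (n + 1) - t‖ ≤ ‖eval t P‖ := by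
      have : newt P t (n + 1) - t = (newt P t (n + 1) - newt P t n) + (newt P t n - t) := by ring
      rw [this]
      refine (IsUltrametricDist.norm_add_le_max _ _).trans (max_le ?_ i1)
      rw [e2]
      exact hr
    refine ⟨e3, ?_⟩
    have hn : ∀ m : F, ‖m - t‖ ≤ ‖eval t P‖ → ‖m‖ ≤ 1 := by
      intro m hm
      have : m = (m - t) + t := by ring
      rw [this]
      exact (IsUltrametricDist.norm_add_le_max _ _).trans (max_le (hm.trans h1.le) ht)
    obtain ⟨k, hk, ek⟩ := binom P h _ _ (hn _ e3) (hn _ i1)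
    obtain ⟨l, hl, el⟩ := lips (derivative P) (deriv_int P h) _ _ (hn _ i1) ht
    have e4 : eval (newt P t (n + 1)) P =
        (newt P t (n + 1) - newt P t n) * (l * (newt P t n - t) +
          k * (newt P t (n + 1) - newt P t n)) := by
      have e5 : eval t (derivative P) * (newt P t (n + 1) - newt P t n) =
          -eval (newt P t n) P := by
        rw [e1, mul_neg, mul_div_cancel₀ _ hd]
      have e6 : eval (newt P t n) (derivative P) = eval t (derivative P) +
          l * (newt P t n - t) := by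
        rw [← el]
        ring
      rw [ek, e6]
      linear_combination e5
    rw [e4, norm_mul, e2]
    have e7 : ‖l * (newt P t n - t) + k * (newt P t (n + 1) - newt P t n)‖ ≤ ‖eval t P‖ := by
      refine (IsUltrametricDist.norm_add_le_max _ _).trans (max_le ?_ ?_)
      · rw [norm_mul]
        exact (mul_le_of_le_one_left (norm_nonneg _) hl).trans i1
      · rw [norm_mul, e2]
        exact (mul_le_of_le_one_left (norm_nonneg _) hk).trans hr
    calc ‖eval (newt P t n) P‖ * ‖l * (newt P t n - t) + k * (newt P t (n + 1) - newt P t n)‖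
        ≤ (‖eval t P‖ * ‖eval t P‖ ^ n) * ‖eval t P‖ :=
          mul_le_mul i2 e7 (norm_nonneg _) (mul_nonneg (norm_nonneg _)
            (pow_nonneg (norm_nonneg _) _))
      _ = ‖eval t P‖ * ‖eval t P‖ ^ (n + 1) := by rw [pow_succ]; ring

/-- Hensel's lemma, simple roots -/
theorem hensel (P : F[X]) (t : F) (h : ∀ i, ‖P.coeff i‖ ≤ 1) (ht : ‖t‖ ≤ 1)
    (h1 : ‖eval t P‖ < 1) (h2 : ‖eval t (derivative P)‖ = 1) :
    ∃ e : F, eval e P = 0 ∧ ‖e - t‖ ≤ ‖eval t P‖ := by
  have hc : CauchySeq (newt P t) := by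
    refine cauchySeq_of_le_geometric ‖eval t P‖ ‖eval t P‖ h1 (fun n => ?_)
    rw [dist_comm, dist_eq_norm]
    have e1 : newt P t (n + 1) - newt P t n = -(eval (newt P t n) P / eval t (derivative P)) := by
      simp only [newt]
      ring
    rw [e1, norm_neg, norm_div, h2, div_one]
    exact (newt_aux P t h ht h1 h2 n).2
  obtain ⟨e, he⟩ := cauchySeq_tendsto_of_complete hc
  refine ⟨e, ?_, ?_⟩
  · have l1 : Filter.Tendsto (fun n => eval (newt P t n) P) Filter.atTop (nhds (eval e P)) :=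
      (P.continuous.tendsto e).comp he
    have l2 : Filter.Tendsto (fun n => eval (newt P t n) P) Filter.atTop (nhds 0) := by
      have l3 : Filter.Tendsto (fun n : ℕ => ‖eval t P‖ * ‖eval t P‖ ^ n) Filter.atTop
          (nhds (‖eval t P‖ * 0)) :=
        (tendsto_pow_atTop_nhds_zero_of_lt_one (norm_nonneg _) h1).const_mul _
      rw [mul_zero] at l3
      exact squeeze_zero_norm (fun n => (newt_aux P t h ht h1 h2 n).2) l3
    exact tendsto_nhds_unique l1 l2
  · have l1 : Filter.Tendsto (fun n => ‖newt P t n - t‖) Filter.atTop (nhds ‖e - t‖) :=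
      (he.sub_const t).norm
    exact le_of_tendsto' l1 fun n => (newt_aux P t h ht h1 h2 n).1

end newton

end Pool.Agent.H50.N6B
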