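import Pool.Agent.H32.N6.TargetsB
import Pool.Agent.H50.N6B.LibO

/-!
# BIN: the entries are integral
-/

set_option autoImplicit false

open Polynomial NumberField IsDedekindDomain Matrix Pool.Agent.H32.QC Pool.Agent.H34.N6
  Pool.Agent.H32.N6

namespace Pool.Agent.H50.N6B

theorem pf_BIN : T_BIN := by
  intro F _ _ P g hP h hg
  unfold lam
  exact modByMonic_int P g hP h hg _

end Pool.Agent.H50.N6B
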