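import Pool.Agent.H32.N6.TargetsB
import Pool.Agent.H50.N6B.LibO

/-!
# BRO: the root near a point where the polynomial is small
-/

set_option autoImplicit false

open Polynomial NumberField IsDedekindDomain Matrix Pool.Agent.H32.QC Pool.Agent.H34.N6
  Pool.Agent.H32.N6

namespace Pool.Agent.H50.N6B

theorem sub_le_max' {F : Type} [NormedField F] [IsUltrametricDist F] (x y : F) :
    ‖x - y‖ ≤ max ‖x‖ ‖y‖ := by
  have h := IsUltrametricDist.norm_add_le_max x (-y)
  rw [norm_neg, ← sub_eq_add_neg] at h
  exact h

/-- an element close to one is a square, residue characteristic not two -/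
theorem isSquare_of_near {F : Type} [NormedField F] [IsUltrametricDist F] [CompleteSpace F]
    (h2 : ‖(2 : F)‖ = 1) {u : F} (hu : ‖u - 1‖ < 1) : IsSquare u := by
  have hu1 : ‖u‖ = 1 := norm_eq_of_sub_lt norm_one hu
  have hc : ∀ i, ‖((X : F[X]) ^ 2 - C u).coeff i‖ ≤ 1 := by
    intro i
    rw [coeff_sub, coeff_X_pow, coeff_C]
    have h1 : ‖(if i = 2 then (1 : F) else 0)‖ ≤ 1 := by
      split_ifs
      · simp
      · simp
    have h3 : ‖(if i = 0 then u else 0)‖ ≤ 1 := by
      split_ifs
      · exact hu1.le
      · simp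
    exact (sub_le_max' _ _).trans (max_le h1 h3)
  obtain ⟨e, he, _⟩ := hensel ((X : F[X]) ^ 2 - C u) 1 hc (by simp)
    (by
      rw [← norm_neg] at hu
      simpa using hu)
    (by
      simp only [derivative_sub, derivative_X_pow, derivative_C, sub_zero]
      simpa using h2)
  refine ⟨e, ?_⟩
  have h3 : e ^ 2 - u = 0 := by simpa using he
  linear_combination -h3

theorem pf_BRO (hHEN : T_HEN) : T_BRO := by
  have _ := hHEN
  intro F _ _ _ _ P t h2 hP h7 h hab ht ht1
  obtain ⟨a, b, ha, hb, hab⟩ := hab
  have hd1 : ‖eval t (derivative P)‖ ≤ 1 := eval_int _ (deriv_int P h) t ht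
  have hd : ‖eval t (derivative P)‖ = 1 := by
    have e1 := congrArg (eval t) hab
    rw [eval_add, eval_mul, eval_mul, eval_one] at e1
    have e2 : ‖eval t a * eval t P‖ < 1 := by
      rw [norm_mul]
      exact lt_of_le_of_lt (mul_le_of_le_one_left (norm_nonneg _) (eval_int a ha t ht)) ht1
    have e3 : ‖eval t b * eval t (derivative P)‖ = 1 := by
      refine norm_eq_of_sub_lt norm_one ?_
      have e4 : eval t b * eval t (derivative P) - 1 = -(eval t a * eval t P) := by
        linear_combination e1
      rw [e4, norm_neg]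
      exact e2
    rw [norm_mul] at e3
    have e4 : ‖eval t b‖ ≤ 1 := eval_int b hb t ht
    by_contra h0
    have h5 : ‖eval t (derivative P)‖ < 1 := lt_of_le_of_ne hd1 h0
    have h6 : ‖eval t b‖ * ‖eval t (derivative P)‖ < 1 :=
      lt_of_le_of_lt (mul_le_of_le_one_left (norm_nonneg _) e4) h5
    exact absurd e3 h6.ne
  obtain ⟨e, he, het⟩ := hensel P t h ht ht1 hd
  have het1 : ‖e - t‖ < 1 := lt_of_le_of_lt het ht1
  have hn : ∀ m : F, ‖m - t‖ < 1 → ‖m‖ ≤ 1 := by
    intro m hm
    have : m = (m - t) + t := by ring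
    rw [this]
    exact (IsUltrametricDist.norm_add_le_max _ _).trans (max_le hm.le ht)
  have he1 : ‖e‖ ≤ 1 := hn e het1
  have hde : ‖eval e (derivative P)‖ = 1 := by
    refine norm_eq_of_sub_lt hd ?_
    obtain ⟨k, hk, ek⟩ := lips (derivative P) (deriv_int P h) e t he1 ht
    rw [ek, norm_mul]
    exact lt_of_le_of_lt (mul_le_of_le_one_left (norm_nonneg _) hk) het1
  refine ⟨e, he, het1, ?_⟩
  intro e' he' het'
  have he'1 : ‖e'‖ ≤ 1 := hn e' het'
  constructor
  · obtain ⟨k, hk, ek⟩ := binom P h e' e he'1 he1
    rw [he, he', zero_add] at ek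
    have hee : ‖e' - e‖ < 1 := by
      have : e' - e = (e' - t) - (e - t) := by ring
      rw [this]
      exact lt_of_le_of_lt (sub_le_max' _ _) (max_lt het' het1)
    have e5 : (e' - e) * (eval e (derivative P) + k * (e' - e)) = 0 := by
      linear_combination -ek
    rcases mul_eq_zero.1 e5 with h0 | h0
    · exact sub_eq_zero.1 h0
    · exfalso
      have e6 : ‖(0 : F)‖ = 1 := by
        refine norm_eq_of_sub_lt hde ?_
        have e7 : (0 : F) - eval e (derivative P) = k * (e' - e) := by linear_combination -h0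
        rw [e7, norm_mul]
        exact lt_of_le_of_lt (mul_le_of_le_one_left (norm_nonneg _) hk) hee
      rw [norm_zero] at e6
      exact zero_ne_one e6
  · obtain ⟨P', hP'⟩ := exists_lift P h
    have hr : eval (⟨e, he1⟩ : ringO F) P' = 0 := by
      apply Subtype.ext
      have h8 := eval_lift P' ⟨e, he1⟩
      rw [hP'] at h8
      rw [← h8]
      exact he
    obtain ⟨Q, hQ⟩ := dvd_iff_isRoot.2 hr
    have hPQ : P = (X - C e) * Q.map (ringO F).subtype := by
      conv_lhs => rw [← hP', hQ]
      rw [Polynomial.map_mul, Polynomial.map_sub, map_X, map_C]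
      rfl
    refine ⟨Q.map (ringO F).subtype, hPQ, ?_⟩
    have hm : (Q.map (ringO F).subtype).Monic := by
      apply (monic_X_sub_C e).of_mul_monic_left
      rw [← hPQ]
      exact hP
    have hi := coeff_map_le Q
    have hP1e : ‖eval e (Q.map (ringO F).subtype)‖ = 1 := by
      have e8 : eval e (derivative P) = eval e (Q.map (ringO F).subtype) := by
        conv_lhs => rw [hPQ]
        rw [derivative_mul, derivative_X_sub_C, one_mul, eval_add, eval_mul, eval_sub, eval_X,
          eval_C, sub_self, zero_mul, add_zero]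
      rw [← e8]
      exact hde
    obtain ⟨k, hk, ek⟩ := lips (Q.map (ringO F).subtype) hi t e ht he1
    have hlt : ‖eval t (Q.map (ringO F).subtype) - eval e (Q.map (ringO F).subtype)‖ < 1 := by
      rw [ek, norm_mul, norm_sub_rev]
      exact lt_of_le_of_lt (mul_le_of_le_one_left (norm_nonneg _) hk) het1
    refine ⟨hm, ?_, hi, hP1e, norm_eq_of_sub_lt hP1e hlt, ?_⟩
    · have h9 := (monic_X_sub_C e).natDegree_mul hm
      rw [← hPQ, h7, natDegree_X_sub_C] at h9
      omega
    · have hne : eval e (Q.map (ringO F).subtype) ≠ 0 := by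
        intro h0
        rw [h0, norm_zero] at hP1e
        exact zero_ne_one hP1e
      obtain ⟨s, hs⟩ := isSquare_of_near h2
        (u := eval t (Q.map (ringO F).subtype) / eval e (Q.map (ringO F).subtype)) (by
          have e9 : eval t (Q.map (ringO F).subtype) / eval e (Q.map (ringO F).subtype) - 1 =
              (eval t (Q.map (ringO F).subtype) - eval e (Q.map (ringO F).subtype)) /
                eval e (Q.map (ringO F).subtype) := by
            rw [sub_div, div_self hne]
          rw [e9, norm_div, hP1e, div_one]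
          exact hlt)
      refine ⟨s * eval e (Q.map (ringO F).subtype), ?_⟩
      rw [div_eq_iff hne] at hs
      rw [hs]
      ring

end Pool.Agent.H50.N6B
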